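import Pool.Agent.Q287.KI.Main

set_option autoImplicit false

/-!
# MP_5b044e_pr, Q1: every one-player percolation game has a limit value

The answer to Q1 is yes.  The theorem covers every one-player percolation game on `ℤ^d` (maximising
or minimising player, arbitrary displacements, no orientation assumption) whose payoffs are bounded
and stationary; the case of i.i.d. payoffs asked about in Q1 is a special case.
-/

open MeasureTheory Filter Topology

namespace Pool.Agent.Results.MP_5b044e_pr.LimitValue

open Q287.KI

/-- For every one-player percolation game with bounded stationary payoffs (in particular with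
i.i.d. payoffs) and every state `z`, the `n`-stage value `v_n(z)` converges almost surely, both when
the single player maximises and when he minimises. -/
theorem result {d : ℕ} {I Ω : Type*} [Finite I] [Nonempty I] [MeasurableSpace Ω] {P : Measure Ω}
    [IsProbabilityMeasure P] (Γ : Game d I P) (z : Fin d → ℤ) :
    (∀ᵐ ω ∂P, ∃ v, Tendsto (fun n => maxValue Γ ω z n) atTop (𝓝 v)) ∧
      ∀ᵐ ω ∂P, ∃ v, Tendsto (fun n => minValue Γ ω z n) atTop (𝓝 v) := by
  classical
  have : Fintype I := Fintype.ofFinite I
  exact ⟨maxValue_converges Γ z, minValue_converges Γ z⟩

end Pool.Agent.Results.MP_5b044e_pr.LimitValue
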